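import Pool.Agent.QDA.StmtsM
import Pool.Agent.Helper34_QDA.Trq
import Pool.Agent.Helper16_QDA.Mean

/-!
# QDA, row TRM: from the torus to the lattice, event `BadM` / `BadZM`
-/

set_option autoImplicit false

open MeasureTheory ProbabilityTheory Function Filter

open scoped BigOperators NNReal ENNReal Matrix InnerProductSpace Topology

noncomputable section

namespace Pool.Agent.QDA.H36

open Pool.Agent.Anderson hiding box mem_box card_box
open Pool.Agent.Loc Pool.Agent.Mob Pool.Agent.Helper54.Bal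
  Pool.Agent.Helper96.EXP Pool.Agent.BED
open Pool.Agent.LE.MN Pool.Agent.LE.CL Pool.Agent.LE.IR Pool.Agent.LE.QD

/-- the two distances to the origin agree -/
theorem dist_zero {d M : ℕ} (x : Tor d M) : ANP.H61.sd 0 x = sd 0 (rep x) := by
  unfold ANP.H61.sd sd
  refine Finset.sup_congr rfl fun i _ => ?_
  have h : ∀ a : ZMod M, ANP.H61.cd 0 a = (0 - a.valMinAbs).natAbs := by
    intro a
    unfold ANP.H61.cd
    rw [zero_sub, zero_sub, Int.natAbs_neg, ZMod.natAbs_valMinAbs_neg]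
  exact h (x i)

/-- `BadM` is covariant -/
theorem badM_tr {d M : ℕ} [NeZero M] (U : Tor d M → ℝ) (E η : ℝ) (m : ℂ) (ε : ℝ) (r R : ℕ)
    (x : Tor d M) : BadM U E η m ε r R x ↔ BadM (tr x U) E η m ε r R 0 := by
  have h1 : Gt (tr x U) E η 0 0 = Gt U E η x x := by rw [H16.gt_tr, add_zero]
  have h2 : ∀ (p : ℕ → Prop) [DecidablePred p],
      ∑ y, (if p (ANP.H61.sd (0 : Tor d M) y) then ‖Gt (tr x U) E η 0 y‖ ^ 2 else 0) =
        ∑ y, (if p (ANP.H61.sd x y) then ‖Gt U E η x y‖ ^ 2 else 0) := by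
    intro p _
    rw [← Equiv.sum_comp (Equiv.addLeft x)
      (fun y => if p (ANP.H61.sd x y) then ‖Gt U E η x y‖ ^ 2 else 0)]
    refine Finset.sum_congr rfl fun y _ => ?_
    have h3 : ANP.H61.sd x (x + y) = ANP.H61.sd (0 : Tor d M) y := by
      have := H16.sd_add x 0 y
      rwa [add_zero] at this
    rw [Equiv.coe_addLeft, h3, H16.gt_tr, add_zero]
  unfold BadM
  rw [h1, h2 (fun n => n < r), h2 (fun n => R ≤ n)]

/-- `BadM` is measurable -/
theorem badM_meas {d M : ℕ} [NeZero M] (E : ℝ) {η : ℝ} (hη : 0 < η) (m : ℂ) (ε : ℝ) (r R : ℕ)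
    (x : Tor d M) : MeasurableSet {U : Tor d M → ℝ | BadM U E η m ε r R x} := by
  have hG : ∀ y, Measurable fun U : Tor d M → ℝ => Gt U E η x y :=
    fun y => (ACX.H38.gr_cont' E hη x y).measurable
  have hi : Measurable fun U : Tor d M → ℝ => ‖Gt U E η x x - m‖ :=
    ((hG x).sub measurable_const).norm
  have hs : ∀ (p : ℕ → Prop) [DecidablePred p], Measurable fun U : Tor d M → ℝ =>
      η * ∑ y, (if p (ANP.H61.sd x y) then ‖Gt U E η x y‖ ^ 2 else 0) := by
    intro p _
    refine measurable_const.mul (Finset.measurable_fun_sum _ fun y _ => ?_)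
    split_ifs
    · exact (hG y).norm.pow_const 2
    · exact measurable_const
  have h : {U : Tor d M → ℝ | BadM U E η m ε r R x} =
      {U | ε < ‖Gt U E η x x - m‖} ∪
      ({U | ε < η * ∑ y, (if ANP.H61.sd x y < r then ‖Gt U E η x y‖ ^ 2 else 0)} ∪
        {U | ε < η * ∑ y, (if R ≤ ANP.H61.sd x y then ‖Gt U E η x y‖ ^ 2 else 0)}) := by
    ext U
    unfold BadM
    simp only [Set.mem_union, Set.mem_ofPred_eq]
  rw [h]
  exact (measurableSet_lt measurable_const hi).union
    ((measurableSet_lt measurable_const (hs fun n => n < r)).union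
      (measurableSet_lt measurable_const (hs fun n => R ≤ n)))

/-- real series -/
theorem real_of_enn {ι : Type*} (P : ι → Prop) [DecidablePred P] (f : ι → ℝ) (hf : ∀ x, 0 ≤ f x)
    {η a : ℝ} (ha : 0 ≤ a) (hη : 0 ≤ η)
    (h : ∑' y, (if P y then ENNReal.ofReal (η * f y) else 0) ≤ ENNReal.ofReal a) :
    η * ∑' y, (if P y then f y else 0) ≤ a := by
  by_cases hs : Summable fun y => (if P y then f y else 0)
  · rw [← tsum_mul_left, ← ENNReal.ofReal_le_ofReal_iff ha,
      ENNReal.ofReal_tsum_of_nonneg (fun y => by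
        have := hf y
        split_ifs <;> positivity) (hs.mul_left η)]
    refine le_trans (le_of_eq ?_) h
    refine tsum_congr fun y => ?_
    split_ifs
    · rfl
    · rw [mul_zero, ENNReal.ofReal_zero]
  · rw [tsum_eq_zero_of_not_summable hs, mul_zero]
    exact ha

open Classical in
/-- the mean of the number of the bad sites is the probability that `0` is bad -/
theorem mean_badM {d M : ℕ} [NeZero M] (v : ℝ≥0) (E : ℝ) {η : ℝ} (hη : 0 < η) (m : ℂ) (ε : ℝ)
    (r R : ℕ) :
    gau d M v {U | BadM U E η m ε r R 0} ≤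
      ∫⁻ U, ENNReal.ofReal (((Finset.univ.filter fun x : Tor d M =>
          BadM U E η m ε r R x).card : ℝ) / (M : ℝ) ^ d) ∂(gau d M v) := by
  have h1 := H16.mean_gen (d := d) (M := M) v (fun U x => BadM U E η m ε r R x)
    (fun U x => badM_tr U E η m ε r R x) (fun x => badM_meas E hη m ε r R x)
    (W := Set.univ) MeasurableSet.univ
  refine h1.trans ?_
  rw [Set.compl_univ, measure_empty, add_zero]
  refine le_of_eq (lintegral_congr fun U => ?_)
  have hM0 : (0 : ℝ) < (M : ℝ) ^ d := by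
    have : (0 : ℝ) < M := by exact_mod_cast Nat.pos_of_ne_zero (NeZero.ne M)
    positivity
  rw [Set.indicator_univ, ENNReal.ofReal_div_of_pos hM0, ENNReal.ofReal_natCast]
  congr 1
  rw [Fintype.card_fun, ZMod.card, Fintype.card_fin]
  rw [← ENNReal.ofReal_natCast]
  congr 1
  push_cast
  rfl

/-- TRM: FROM THE TORUS TO THE LATTICE -/
theorem trm : TrmStmt := by
  classical
  intro d ε hd hε
  obtain ⟨C, hC1, hC⟩ := H34.l2 d
  have hC5 : (1 : ℝ) ≤ C ^ 5 := one_le_pow₀ hC1
  have hC24 : 1 / (24 * C ^ 5) ≤ 1 / 24 := one_div_le_one_div_of_le (by norm_num) (by linarith)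
  refine ⟨min (1 / (24 * C ^ 5)) ε, by positivity,
    (min_le_left _ _).trans (hC24.trans (by norm_num)), ?_⟩
  intro M _ σ E η m v r R hσ hv hη hη0 hM _ _
  have hη1 : η ≤ 1 / (24 * C ^ 5) := hη0.trans (min_le_left _ _)
  have hηε : η ≤ ε := hη0.trans (min_le_right _ _)
  have hη24 : η ≤ 1 / 24 := hη1.trans hC24
  have hηM : 1 ≤ η ^ 2 * M := by
    have h1 : η ^ (-3 : ℝ) = (η ^ 3)⁻¹ := by
      rw [Real.rpow_neg hη.le]
      norm_num
    rw [h1] at hM
    have h2 : η ^ 2 * (η ^ 3)⁻¹ ≤ η ^ 2 * M := by gcongr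
    have h3 : η ^ 2 * (η ^ 3)⁻¹ = 1 / η := by
      field_simp
    have h4 : 1 ≤ 1 / η := by
      rw [le_div_iff₀ hη]
      linarith
    linarith
  have hSm : MeasurableSet {U : Tor d M → ℝ | BadM U E η m ε r R 0} := badM_meas E hη m ε r R 0
  have h2 : PP d (gl σ) {V : Site d → ℝ | (fun x : Tor d M => V ((0 : Site d) + rep x)) ∈
      {U : Tor d M → ℝ | BadM U E η m ε r R 0}} =
        gau d M v {U : Tor d M → ℝ | BadM U E η m ε r R 0} := by
    have hf : Measurable fun (V : Site d → ℝ) (x : Tor d M) => V ((0 : Site d) + rep x) :=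
      measurable_pi_lambda _ fun x => measurable_pi_apply _
    have h3 := Pool.Agent.LE.QY.H60.lin_eq (d := d) (M := M) hσ hv (0 : Site d)
      ({U : Tor d M → ℝ | BadM U E η m ε r R 0}.indicator 1) (measurable_one.indicator hSm)
    rw [lintegral_indicator_one hSm] at h3
    rw [← h3]
    exact (lintegral_indicator_one (μ := PP d (gl σ)) (hf hSm)).symm
  refine le_trans ?_ (mean_badM v E hη m ε r R)
  rw [← h2]
  apply measure_mono
  intro V hV
  by_contra hb
  have h5 : (fun x : Tor d M => V ((0 : Site d) + rep x)) = fun x : Tor d M => V (rep x) := by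
    funext x
    rw [zero_add]
  have h6 : ¬ BadM (fun x : Tor d M => V ((0 : Site d) + rep x)) E η m ε r R 0 := hb
  rw [h5] at h6
  unfold BadM at h6
  push Not at h6
  obtain ⟨e1, e2, e3⟩ := h6
  have e0 : Gt (fun x : Tor d M => V (rep x)) E η = rs (fun x : Tor d M => V (rep x)) ⟨E, η⟩ := by
    unfold Gt
    exact ACX.H38.gr_rs _ E η
  have hsym : ∀ x y, rs (fun x : Tor d M => V (rep x)) ⟨E, η⟩ x y =
      rs (fun x : Tor d M => V (rep x)) ⟨E, η⟩ y x := fun x y =>
    Pool.Agent.LE.QD.H76.rs_symm _ ⟨E, η⟩ x y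
  rw [e0] at e1 e2 e3
  obtain ⟨L, hL1, hLM, h7, h8⟩ := hC M V E η hη hη1 hηM
  have h9 : ‖G V (zz η E) (del 0) 0 - rs (fun x : Tor d M => V (rep x)) ⟨E, η⟩ 0 0‖ ≤ η := by
    have h10 := (Finset.single_le_sum (f := fun x : Tor d M =>
      ‖(Pool.Agent.LE.QX.H90.ct L (rep x) : ℂ) * G V (zz η E) (del 0) (rep x) -
        rs (fun x : Tor d M => V (rep x)) ⟨E, η⟩ x 0‖ ^ 2) (fun x _ => by positivity)
      (Finset.mem_univ 0)).trans h7
    have h16 : sd (0 : Site d) 0 ≤ L := by
      have h17 : sd (0 : Site d) 0 = 0 := by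
        rw [← Nat.le_zero, sd_le_iff]
        simp
      omega
    simp only [Pool.Agent.ANE.H72.rep_zero'] at h10
    rw [Pool.Agent.LE.QX.H90.ct_one hL1 h16, Complex.ofReal_one, one_mul] at h10
    exact (pow_le_pow_iff_left₀ (norm_nonneg _) hη.le (by norm_num)).1 h10
  have h14 : 3 * η ^ 3 ≤ ε := by
    have h15 : η ^ 2 ≤ (1 / 24) ^ 2 := by gcongr
    have : η ^ 3 = η * η ^ 2 := by ring
    rw [this]
    nlinarith
  have key : ∀ (p : ℕ → Prop) [DecidablePred p],
      η * ∑ y : Tor d M, (if p (ANP.H61.sd 0 y) then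
        ‖rs (fun x : Tor d M => V (rep x)) ⟨E, η⟩ 0 y‖ ^ 2 else 0) ≤ ε →
      η * ∑' x : Site d, (if p (sd 0 x) then ‖G V (zz η E) (del 0) x‖ ^ 2 else 0) ≤ 3 * ε := by
    intro p _ hp
    refine real_of_enn (fun x => p (sd 0 x)) (fun x => ‖G V (zz η E) (del 0) x‖ ^ 2)
      (fun x => by positivity) (by linarith) hη.le ?_
    have h10 := H34.mass V E η hη L hL1 hLM h7 h8 (fun x => p (sd 0 x))
    refine le_trans (le_of_eq ?_) (h10.trans (ENNReal.ofReal_le_ofReal ?_))
    · refine tsum_congr fun y => ?_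
      split_ifs <;> rfl
    · have h11 : η * ∑ x : Tor d M, (if p (sd 0 (rep x)) then
          ‖rs (fun x : Tor d M => V (rep x)) ⟨E, η⟩ x 0‖ ^ 2 else 0) ≤ ε := by
        refine le_trans (le_of_eq ?_) hp
        congr 1
        refine Finset.sum_congr rfl fun x _ => ?_
        rw [dist_zero, hsym x 0]
      have h12 : ∀ S : ℝ, S = ∑ x : Tor d M, (if p (sd 0 (rep x)) then
          ‖rs (fun x : Tor d M => V (rep x)) ⟨E, η⟩ x 0‖ ^ 2 else 0) →
          2 * (η * S) + 3 * η ^ 3 ≤ 3 * ε := by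
        intro S hS
        rw [← hS] at h11
        linarith
      refine h12 _ (Finset.sum_congr rfl fun x _ => ?_)
      split_ifs <;> rfl
  have hV' : BadZM V E η m (3 * ε) r R := hV
  unfold BadZM at hV'
  rcases hV' with h | h | h
  · have h10 : ‖G V (zz η E) (del 0) 0 - m‖ ≤
        ‖G V (zz η E) (del 0) 0 - rs (fun x : Tor d M => V (rep x)) ⟨E, η⟩ 0 0‖ +
          ‖rs (fun x : Tor d M => V (rep x)) ⟨E, η⟩ 0 0 - m‖ := by
      have := norm_add_le (G V (zz η E) (del 0) 0 - rs (fun x : Tor d M => V (rep x)) ⟨E, η⟩ 0 0)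
        (rs (fun x : Tor d M => V (rep x)) ⟨E, η⟩ 0 0 - m)
      rwa [sub_add_sub_cancel] at this
    linarith
  · exact absurd (key (fun n => n < r) e2) (not_le.2 h)
  · exact absurd (key (fun n => R ≤ n) e3) (not_le.2 h)

end Pool.Agent.QDA.H36
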